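import Mathlib
import Pool.Agent.Zk73.AK.B

/-! # Every large set of slopes contains a block (module US4 of helper46) -/

set_option autoImplicit false

namespace Pool.Agent.Zk46.US

open Finset
open Pool.Agent.R470.AK
open Pool.Agent.Zk73.AK

lemma card_bad0 : (bad0 64).card ≤ 16641 := by
  refine card_image_le.trans ?_
  rw [card_product, Int.card_Icc]
  have h : ((((64 : ℕ) : ℤ) + 1 - -((64 : ℕ) : ℤ)).toNat) = 129 := by omega
  rw [h]

/-- a block of length one -/
lemma block_one (m : ℕ) (S : Finset ℚ) (hS : (bad0 m).card < S.card) :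
    ∃ u : ℕ → ℚ, Blk 2 m 1 u ∧ (∀ i < 1, u i ∈ S) ∧ Set.InjOn u (Set.Iio 1) := by
  classical
  have h1 : ((bad0 m).image fun y => y - 1).card < S.card := lt_of_le_of_lt card_image_le hS
  obtain ⟨x, hxS, hx⟩ := exists_mem_notMem_of_card_lt_card h1
  have hx1 : x + 1 ∉ bad0 m := fun h => hx (mem_image.2 ⟨x + 1, h, by ring⟩)
  refine ⟨fun _ => x, ⟨fun _ => hx1, fun j hj => by omega⟩, fun _ _ => hxS, ?_⟩
  intro a ha b hb _
  simp only [Set.mem_Iio] at ha hb
  omega

/-- one more slope -/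
lemma block_succ {l : ℕ} {S : Finset ℚ} (hS : 2 ^ (12 * 2 ^ l + 16) ≤ S.card) {i : ℕ} (hi : 1 ≤ i)
    (hil : i + 1 ≤ l) {u : ℕ → ℚ} (h1 : Blk 2 64 i u) (h2 : ∀ j < i, u j ∈ S)
    (h3 : Set.InjOn u (Set.Iio i)) :
    ∃ u : ℕ → ℚ, Blk 2 64 (i + 1) u ∧ (∀ j < i + 1, u j ∈ S) ∧ Set.InjOn u (Set.Iio (i + 1)) := by
  classical
  obtain ⟨i, rfl⟩ : ∃ i', i = i' + 1 := ⟨i - 1, by omega⟩
  set F : Finset ℚ := (bd 2 (tgt 2 64 u i)).image (fun y => y + u 0) ∪ (range (i + 1)).image u
    with hF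
  have hFc : F.card < S.card := by
    have e1 : (tgt 2 64 u i).card ≤ 64 ^ (2 * 2 ^ i) := card_tgt_le u i
    have e2 : (bd 2 (tgt 2 64 u i)).card ≤ 2 ^ (12 * 2 ^ l + 1) := by
      refine (bd_card 2 _).trans ?_
      calc 2 * (tgt 2 64 u i).card ^ (2 * 2) ≤ 2 * (64 ^ (2 * 2 ^ i)) ^ (2 * 2) :=
            Nat.mul_le_mul_left _ (Nat.pow_le_pow_left e1 _)
        _ = 2 ^ (12 * 2 ^ (i + 1 + 1) + 1) := by
            have : (64 : ℕ) = 2 ^ 6 := by norm_num
            rw [this, ← pow_mul, ← pow_mul, pow_succ 2 (12 * _), mul_comm 2]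
            congr 2
            ring
        _ ≤ 2 ^ (12 * 2 ^ l + 1) := by
            refine Nat.pow_le_pow_right (by norm_num) ?_
            have : 2 ^ (i + 1 + 1) ≤ 2 ^ l := Nat.pow_le_pow_right (by norm_num) hil
            omega
    have e3 : F.card ≤ 2 ^ (12 * 2 ^ l + 1) + (i + 1) := by
      refine (card_union_le _ _).trans (Nat.add_le_add (card_image_le.trans e2) ?_)
      exact card_image_le.trans (by rw [card_range])
    have e4 : l < 2 ^ l := Nat.lt_two_pow_self
    have e5 : 12 * 2 ^ l < 2 ^ (12 * 2 ^ l) := Nat.lt_two_pow_self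
    have e6 : 2 ^ (12 * 2 ^ l + 16) = 65536 * 2 ^ (12 * 2 ^ l) := by
      rw [pow_add]
      norm_num
      ring
    have e7 : 2 ^ (12 * 2 ^ l + 1) = 2 * 2 ^ (12 * 2 ^ l) := by
      rw [pow_add]
      ring
    omega
  obtain ⟨x, hxS, hx⟩ := exists_mem_notMem_of_card_lt_card hFc
  rw [hF, mem_union, not_or] at hx
  obtain ⟨hx1, hx2⟩ := hx
  have hv : ∀ j, j ≠ i + 1 → Function.update u (i + 1) x j = u j := fun j hj =>
    Function.update_of_ne hj _ _
  have hvi : Function.update u (i + 1) x (i + 1) = x := Function.update_self _ _ _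
  refine ⟨Function.update u (i + 1) x, ⟨fun _ => ?_, fun j hj => ?_⟩, fun j hj => ?_, ?_⟩
  · rw [hv 0 (by omega)]
    exact h1.1 (by omega)
  · rw [tgt_congr (v := u) fun k hk => hv k (by omega)]
    rcases Nat.lt_or_ge (j + 1) (i + 1) with hj2 | hj2
    · have : stp (Function.update u (i + 1) x) j = stp u j := by
        unfold stp
        rw [hv 0 (by omega), hv (j + 1) (by omega)]
      rw [this]
      exact h1.2 j hj2
    · obtain rfl : j = i := by omega
      have : stp (Function.update u (j + 1) x) j = x - u 0 := by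
        unfold stp
        rw [hv 0 (by omega), hvi]
      rw [this]
      by_contra hcon
      exact hx1 (mem_image.2 ⟨x - u 0, bd_mem hcon, by ring⟩)
  · rcases eq_or_ne j (i + 1) with rfl | hj2
    · rw [hvi]
      exact hxS
    · rw [hv j hj2]
      exact h2 j (by omega)
  · intro a ha b hb hab
    simp only [Set.mem_Iio] at ha hb
    rcases eq_or_ne a (i + 1) with rfl | ha2
    · rcases eq_or_ne b (i + 1) with rfl | hb2
      · rfl
      · rw [hvi, hv b hb2] at hab
        exact absurd (mem_image.2 ⟨b, mem_range.2 (by omega), hab.symm⟩) hx2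
    · rcases eq_or_ne b (i + 1) with rfl | hb2
      · rw [hvi, hv a ha2] at hab
        exact absurd (mem_image.2 ⟨a, mem_range.2 (by omega), hab⟩) hx2
      · rw [hv a ha2, hv b hb2] at hab
        exact h3 (Set.mem_Iio.2 (by omega)) (Set.mem_Iio.2 (by omega)) hab

/-- (US4) every large set of slopes contains a block -/
theorem exists_block (l : ℕ) (hl : 1 ≤ l) (S : Finset ℚ)
    (hS : 2 ^ (12 * 2 ^ l + 16) ≤ S.card) :
    ∃ u : ℕ → ℚ, Blk 2 64 l u ∧ (∀ i < l, u i ∈ S) ∧ Set.InjOn u (Set.Iio l) := by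
  have h : ∀ i, 1 ≤ i → i ≤ l → ∃ u : ℕ → ℚ, Blk 2 64 i u ∧ (∀ j < i, u j ∈ S) ∧
      Set.InjOn u (Set.Iio i) := by
    intro i hi
    induction i, hi using Nat.le_induction with
    | base =>
      intro _
      have h1 : 2 ^ 16 ≤ 2 ^ (12 * 2 ^ l + 16) := Nat.pow_le_pow_right (by norm_num) (by omega)
      have h2 : 16641 < 2 ^ 16 := by norm_num
      exact block_one 64 S (lt_of_le_of_lt card_bad0 (h2.trans_le (h1.trans hS)))
    | succ i hi ih =>
      intro hil
      obtain ⟨u, h1, h2, h3⟩ := ih (by omega)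
      exact block_succ hS hi hil h1 h2 h3
  exact h l hl le_rfl

end Pool.Agent.Zk46.US
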